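import Mathlib

/-!
# Cantor sets in sequentially closed subgroups of powers of the circle

If `g n` is a sequence of nonzero elements of a sequentially closed subgroup `D` of `𝕋 ^ Ω` which
converges to `0` and the moduli of convergence of the coordinates are dominated by one function,
then `D` contains an injective continuous image of `2 ^ ℕ`: the sums of the subseries of a rapidly
converging subsequence.
-/

set_option autoImplicit false

open Filter Topology

namespace Pool.Agent.K1H57.Cantor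

variable {Ω : Type*}

/-- A sequence of indices with prescribed lower bounds. -/
theorem exists_indices (h : ℕ → ℕ) (nx : ℕ → ℕ → ℕ) :
    ∃ n : ℕ → ℕ, StrictMono n ∧ (∀ i, h i ≤ n i) ∧ ∀ i, nx (i + 1) (n i) ≤ n (i + 1) := by
  let n : ℕ → ℕ := fun i => Nat.rec (h 0) (fun i m => max (h (i + 1)) (max (nx (i + 1) m) (m + 1))) i
  have hn : ∀ i, n (i + 1) = max (h (i + 1)) (max (nx (i + 1) (n i)) (n i + 1)) := fun i => rfl
  refine ⟨n, strictMono_nat_of_lt_succ fun i => ?_, fun i => ?_, fun i => ?_⟩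
  · rw [hn]
    have : n i < n i + 1 := Nat.lt_succ_self _
    exact this.trans_le ((le_max_right _ _).trans (le_max_right _ _))
  · cases i with
    | zero => exact le_rfl
    | succ i =>
      rw [hn]
      exact le_max_left _ _
  · rw [hn]
    exact (le_max_left _ _).trans (le_max_right _ _)

theorem exists_embedding (D : AddSubgroup (Ω → UnitAddCircle))
    (hD : IsSeqClosed (D : Set (Ω → UnitAddCircle)))
    (hdom : ∀ F : Ω → ℕ → ℕ, ∃ g : ℕ → ℕ, ∀ x, ∀ᶠ i in atTop, F x i < g i)
    (g : ℕ → Ω → UnitAddCircle) (hg : ∀ n, g n ∈ D) (hg0 : ∀ n, g n ≠ 0)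
    (hlim : Tendsto g atTop (𝓝 0)) :
    ∃ Φ : (ℕ → Bool) → Ω → UnitAddCircle, Continuous Φ ∧ Function.Injective Φ ∧ ∀ A, Φ A ∈ D := by
  classical
  have hlim' : ∀ x, Tendsto (fun n => ‖g n x‖) atTop (𝓝 0) := by
    intro x
    have h1 := (tendsto_pi_nhds.1 hlim x).norm
    simpa using h1
  -- moduli of convergence
  have hmod : ∀ (x : Ω) (δ : ℝ), 0 < δ → ∃ N : ℕ, ∀ n, N ≤ n → ‖g n x‖ ≤ δ := by
    intro x δ hδ
    obtain ⟨N, hN⟩ := eventually_atTop.1 ((hlim' x).eventually (gt_mem_nhds hδ))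
    exact ⟨N, fun n hn => (hN n hn).le⟩
  have hmod' : ∀ (x : Ω) (j : ℕ), ∃ N : ℕ, ∀ n, N ≤ n → ‖g n x‖ ≤ (1 / 2 : ℝ) ^ j :=
    fun x j => hmod x _ (by positivity)
  choose F hF using hmod'
  obtain ⟨h, hh⟩ := hdom F
  -- coordinates
  have hco : ∀ n, ∃ x, g n x ≠ 0 := fun n => Function.ne_iff.1 (hg0 n)
  choose a ha using hco
  have hε : ∀ n, 0 < ‖g n (a n)‖ := fun n => norm_pos_iff.2 (ha n)
  have hnx : ∀ i m : ℕ, ∃ N : ℕ, ∀ n, N ≤ n → ∀ m' ≤ m,
      ‖g n (a m')‖ ≤ ‖g m' (a m')‖ * (1 / 2 : ℝ) ^ (i + 2) := by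
    intro i m
    have h1 : ∀ m', ∃ N : ℕ, ∀ n, N ≤ n → ‖g n (a m')‖ ≤ ‖g m' (a m')‖ * (1 / 2 : ℝ) ^ (i + 2) :=
      fun m' => hmod _ _ (mul_pos (hε m') (by positivity))
    choose N hN using h1
    refine ⟨(Finset.range (m + 1)).sup N, fun n hn m' hm' => hN m' n ?_⟩
    exact (Finset.le_sup (f := N) (Finset.mem_range.2 (Nat.lt_succ_of_le hm'))).trans hn
  choose nx hnx using hnx
  obtain ⟨n, hmono, hn1, hn2⟩ := exists_indices h nx
  have hkey : ∀ j i, j < i →
      ‖g (n i) (a (n j))‖ ≤ ‖g (n j) (a (n j))‖ * (1 / 2 : ℝ) ^ (i + 2) := by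
    intro j i hji
    obtain ⟨i, rfl⟩ : ∃ k, i = k + 1 := ⟨i - 1, by omega⟩
    exact hnx (i + 1) (n i) (n (i + 1)) (hn2 i) (n j) (hmono.monotone (by omega))
  -- summability
  have hsum : ∀ x, Summable fun i => ‖g (n i) x‖ := by
    intro x
    have h1 : Summable fun i : ℕ => (1 / 2 : ℝ) ^ i := summable_geometric_two
    refine Summable.of_norm_bounded_eventually_nat h1 ?_
    filter_upwards [hh x] with i hi
    rw [norm_norm]
    exact hF x i (n i) (hi.le.trans (hn1 i))
  let f : (ℕ → Bool) → ℕ → Ω → UnitAddCircle := fun A i => if A i then g (n i) else 0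
  have hfx : ∀ A i x, f A i x = if A i then g (n i) x else 0 := by
    intro A i x
    simp only [f]
    split_ifs
    · rfl
    · rfl
  have hfn : ∀ A i x, ‖f A i x‖ ≤ ‖g (n i) x‖ := by
    intro A i x
    rw [hfx]
    split_ifs
    · exact le_rfl
    · simp
  have hfs : ∀ A x, Summable fun i => f A i x := fun A x =>
    Summable.of_norm_bounded (hsum x) (fun i => hfn A i x)
  refine ⟨fun A x => ∑' i, f A i x, ?_, ?_, ?_⟩
  · refine continuous_pi fun x => ?_
    refine continuous_tsum (fun i => ?_) (hsum x) (fun i A => hfn A i x)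
    simp only [hfx]
    have h1 : Continuous fun b : Bool => if b then g (n i) x else (0 : UnitAddCircle) :=
      continuous_of_discreteTopology
    exact h1.comp (continuous_apply i)
  · intro A B hAB
    by_contra hne
    have hex : ∃ k, A k ≠ B k := Function.ne_iff.1 hne
    let k := Nat.find hex
    have hk : A k ≠ B k := Nat.find_spec hex
    have hlt : ∀ i < k, A i = B i := fun i hi => not_not.1 (Nat.find_min hex hi)
    let x := a (n k)
    let t : ℕ → UnitAddCircle := fun i => f A i x - f B i x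
    have ht0 : ∑' i, t i = 0 := by
      have h1 : ∑' i, f A i x = ∑' i, f B i x := congrFun hAB x
      rw [(hfs A x).tsum_sub (hfs B x), h1, sub_self]
    have hts : Summable t := (hfs A x).sub (hfs B x)
    have htk : ‖t k‖ = ‖g (n k) x‖ := by
      simp only [t, hfx]
      rcases hA : A k with _ | _ <;> rcases hB : B k with _ | _
      · exact absurd (hA.trans hB.symm) hk
      · simp
      · simp
      · exact absurd (hA.trans hB.symm) hk
    have hti : ∀ i, ‖(if i = k then 0 else t i)‖ ≤ ‖g (n k) x‖ * (1 / 2 : ℝ) ^ (i + 2) := by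
      intro i
      split_ifs with hik
      · rw [norm_zero]
        positivity
      · rcases lt_or_gt_of_ne hik with h1 | h1
        · simp only [t, hfx, hlt i h1, sub_self, norm_zero]
          positivity
        · refine le_trans ?_ (hkey k i h1)
          simp only [t, hfx]
          rcases A i with _ | _ <;> rcases B i with _ | _ <;> simp [x]
    have h2 : HasSum (fun i : ℕ => ‖g (n k) x‖ * (1 / 2 : ℝ) ^ (i + 2)) (‖g (n k) x‖ / 2) := by
      have h3 := (hasSum_geometric_two.mul_left (‖g (n k) x‖ * (1 / 2 : ℝ) ^ 2))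
      have h8 : (fun i : ℕ => ‖g (n k) x‖ * (1 / 2 : ℝ) ^ (i + 2)) =
          fun i => ‖g (n k) x‖ * (1 / 2 : ℝ) ^ 2 * (1 / 2 : ℝ) ^ i := by
        funext i
        ring
      have h9 : ‖g (n k) x‖ / 2 = ‖g (n k) x‖ * (1 / 2 : ℝ) ^ 2 * 2 := by ring
      rw [h8, h9]
      exact h3
    have h4 := tsum_of_norm_bounded h2 hti
    have h5 := hts.tsum_eq_add_tsum_ite k
    rw [ht0] at h5
    have h6 : ‖t k‖ ≤ ‖g (n k) x‖ / 2 := by
      have h7 : t k = -∑' i, (if i = k then 0 else t i) := eq_neg_of_add_eq_zero_left h5.symm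
      rw [h7, norm_neg]
      exact h4
    rw [htk] at h6
    have := hε (n k)
    simp only [x] at h6
    linarith
  · intro A
    have h1 : Tendsto (fun N => ∑ i ∈ Finset.range N, f A i) atTop
        (𝓝 fun x => ∑' i, f A i x) := by
      rw [tendsto_pi_nhds]
      intro x
      have h2 := (hfs A x).hasSum.tendsto_sum_nat
      simpa [Finset.sum_apply] using h2
    refine hD (fun N => ?_) h1
    refine D.sum_mem fun i _ => ?_
    simp only [f]
    split_ifs
    · exact hg _
    · exact D.zero_mem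

end Pool.Agent.K1H57.Cantor
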