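import Pool.Agent.K1H57.MATools
import Pool.Agent.K1H57.Cantor

/-!
# Countably compact subgroups of powers of the circle under Martin's axiom
-/

set_option autoImplicit false

open Filter Topology Cardinal Pool.Agent.W684 Pool.Agent.W684.FM

namespace Pool.Agent.K1H57.CCGroup

/-- A countably compact subset of a Hausdorff space is sequentially closed. -/
theorem isSeqClosed_of_isCountablyCompact {X : Type*} [TopologicalSpace X] [T2Space X]
    {D : Set X} (hD : IsCountablyCompact D) : IsSeqClosed D := by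
  intro x a hx hlim
  obtain ⟨b, hb, hcl⟩ := hD.seq_clusterPt x (Eventually.of_forall hx)
  have h1 : ClusterPt b (𝓝 a) := ClusterPt.mono hcl hlim
  have h2 : (𝓝 b ⊓ 𝓝 a).NeBot := h1
  rw [eq_of_nhds_neBot h2] at hb
  exact hb

/-- Under Martin's axiom for `κ` dense sets every sequence in a power of the circle with at most
`κ` factors has a convergent subsequence. -/
theorem exists_subseq {κ : Cardinal.{0}} (hMA : MartinAxiomCard κ) (hκ : ℵ₀ ≤ κ) {Ω : Type}
    (hΩ : #Ω ≤ κ) (x : ℕ → Ω → UnitAddCircle) :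
    ∃ (a : Ω → UnitAddCircle) (φ : ℕ → ℕ), StrictMono φ ∧ Tendsto (x ∘ φ) atTop (𝓝 a) := by
  classical
  let U : Ultrafilter ℕ := hyperfilter ℕ
  obtain ⟨a, -, ha⟩ := (isCompact_univ (X := Ω → UnitAddCircle)).ultrafilter_le_nhds
    (U.map x) (by simp)
  have hS : ∀ (w : Ω) (j : ℕ), {n | dist (x n w) (a w) < 1 / ((j : ℝ) + 1)} ∈ U := by
    intro w j
    have h1 : Tendsto (fun n => x n w) U (𝓝 (a w)) := (tendsto_pi_nhds.1 ha) w
    exact h1 (Metric.ball_mem_nhds _ (by positivity))
  obtain ⟨A, hA, hAS⟩ := MATools.exists_pseudo hMA hκ (X := Ω × ℕ)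
    (by
      rw [mk_prod, Cardinal.lift_id, Cardinal.lift_id, mk_nat]
      exact mul_le_of_le hκ hΩ hκ)
    (fun z => {n | dist (x n z.1) (a z.1) < 1 / ((z.2 : ℝ) + 1)})
    (by
      intro s hfin
      have h1 : (⋂ z ∈ s, {n | dist (x n z.1) (a z.1) < 1 / ((z.2 : ℝ) + 1)}) ∈ U := by
        rw [← Ultrafilter.mem_coe]
        exact (Filter.biInter_finset_mem s).2 fun z _ => hS z.1 z.2
      exact Filter.notMem_hyperfilter_of_finite hfin h1)
  have : Infinite A := hA.to_subtype
  refine ⟨a, Nat.nth (· ∈ A), Nat.nth_strictMono hA, ?_⟩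
  rw [tendsto_pi_nhds]
  intro w
  rw [Metric.tendsto_atTop]
  intro ε hε
  obtain ⟨j, hj⟩ := exists_nat_one_div_lt hε
  have h1 := hAS (w, j)
  obtain ⟨M, hM⟩ := h1.bddAbove
  refine ⟨M + 1, fun n hn => ?_⟩
  have h2 : M < Nat.nth (· ∈ A) n :=
    lt_of_lt_of_le hn ((Nat.nth_strictMono hA).id_le n)
  have h3 : Nat.nth (· ∈ A) n ∈ A := Nat.nth_mem_of_infinite hA n
  have h4 : dist (x (Nat.nth (· ∈ A) n) w) (a w) < 1 / ((j : ℝ) + 1) := by
    by_contra hcon
    exact absurd (hM ⟨h3, hcon⟩) (not_le.2 h2)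
  exact h4.trans hj

/-- Under Martin's axiom for `κ` dense sets every infinite countably compact subgroup of a power of
the circle with at most `κ` factors contains a Cantor set. -/
theorem exists_cantor {κ : Cardinal.{0}} (hMA : MartinAxiomCard κ) (hκ : ℵ₀ ≤ κ) {Ω : Type}
    (hΩ : #Ω ≤ κ) (D : AddSubgroup (Ω → UnitAddCircle))
    (hinf : (D : Set (Ω → UnitAddCircle)).Infinite)
    (hcc : IsCountablyCompact (D : Set (Ω → UnitAddCircle))) :
    ∃ Φ : (ℕ → Bool) → Ω → UnitAddCircle, Continuous Φ ∧ Function.Injective Φ ∧ ∀ A, Φ A ∈ D := by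
  have hsc := isSeqClosed_of_isCountablyCompact hcc
  have : Infinite D := hinf.to_subtype
  let x : ℕ → Ω → UnitAddCircle := fun n => (Infinite.natEmbedding D n : D)
  have hxD : ∀ n, x n ∈ D := fun n => (Infinite.natEmbedding D n).2
  have hxi : Function.Injective x := fun m n h =>
    (Infinite.natEmbedding D).injective (Subtype.ext h)
  obtain ⟨a, φ, hφ, hlim⟩ := exists_subseq hMA hκ hΩ x
  have haD : a ∈ D := hsc (fun n => hxD (φ n)) hlim
  -- all but at most one term of the subsequence differ from the limit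
  obtain ⟨N, hN⟩ : ∃ N, ∀ n, N ≤ n → x (φ n) ≠ a := by
    by_cases h : ∃ m, x (φ m) = a
    · obtain ⟨m, hm⟩ := h
      refine ⟨m + 1, fun n hn h => ?_⟩
      have h1 : φ n = φ m := hxi (h.trans hm.symm)
      have h2 := hφ.injective h1
      omega
    · push Not at h
      exact ⟨0, fun n _ => h n⟩
  refine Cantor.exists_embedding D hsc (fun F => MATools.bounded hMA hκ hΩ F)
    (fun n => x (φ (n + N)) - a) (fun n => D.sub_mem (hxD _) haD)
    (fun n => sub_ne_zero.2 (hN _ (Nat.le_add_left _ _))) ?_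
  have h1 : Tendsto (fun n => x (φ (n + N))) atTop (𝓝 a) :=
    hlim.comp (tendsto_add_atTop_nat N)
  have h2 := h1.sub (tendsto_const_nhds (x := a))
  simpa using h2

/-- Transfer to the powers of a subgroup of the circle. -/
theorem exists_cantor' {κ : Cardinal.{0}} (hMA : MartinAxiomCard κ) (hκ : ℵ₀ ≤ κ) {Ω : Type}
    (hΩ : #Ω ≤ κ) {K : Type} [AddCommGroup K] [TopologicalSpace K] [CompactSpace K]
    (e : K →+ UnitAddCircle) (he : Continuous e) (hi : Function.Injective e)
    (D : AddSubgroup (Ω → K)) (hinf : (D : Set (Ω → K)).Infinite)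
    (hcc : IsCountablyCompact (D : Set (Ω → K))) :
    ∃ Φ : (ℕ → Bool) → Ω → K, Continuous Φ ∧ Function.Injective Φ ∧ ∀ A, Φ A ∈ D := by
  let E : (Ω → K) →+ (Ω → UnitAddCircle) :=
    { toFun := fun u w => e (u w)
      map_zero' := by
        funext w
        simp
      map_add' := fun u v => by
        funext w
        simp }
  have hEc : Continuous E := continuous_pi fun w => he.comp (continuous_apply w)
  have hEi : Function.Injective E := fun u v h => by
    funext w
    exact hi (congrFun h w)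
  have hEe : IsClosedEmbedding E := hEc.isClosedEmbedding hEi
  have him : ((D.map E : AddSubgroup (Ω → UnitAddCircle)) : Set (Ω → UnitAddCircle)) =
      E '' (D : Set (Ω → K)) := AddSubgroup.coe_map E D
  obtain ⟨Φ, h1, h2, h3⟩ := exists_cantor hMA hκ hΩ (D.map E)
    (by
      rw [him]
      exact hinf.image hEi.injOn)
    (by
      rw [him]
      exact hcc.image hEc)
  choose Ψ hΨD hΨ using fun A => AddSubgroup.mem_map.1 (h3 A)
  refine ⟨Ψ, ?_, ?_, hΨD⟩
  · rw [hEe.isEmbedding.continuous_iff]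
    have h4 : (E : (Ω → K) → Ω → UnitAddCircle) ∘ Ψ = Φ := funext hΨ
    rw [h4]
    exact h1
  · intro A B h
    apply h2
    rw [← hΨ, ← hΨ, h]

/-- A dense subset of an infinite power is infinite. -/
theorem infinite_of_dense {Ω K : Type} [Infinite Ω] [Nontrivial K] [TopologicalSpace K]
    [T2Space K] {D : Set (Ω → K)} (hD : Dense D) : D.Infinite := by
  intro hfin
  have h1 : D = Set.univ := by
    rw [← hfin.isClosed.closure_eq]
    exact hD.closure_eq
  rw [h1] at hfin
  have h2 : Infinite (Ω → K) := Pi.infinite_of_left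
  exact h2.not_finite (Set.finite_univ_iff.1 hfin)

instance : Nontrivial UnitAddCircle :=
  (ZMod.toAddCircle_injective 2).nontrivial

theorem uncountable_range {X : Type*} (Φ : (ℕ → Bool) → X) (hΦ : Function.Injective Φ) :
    ¬ (Set.range Φ).Countable := by
  intro hc
  have h1 : Countable (ℕ → Bool) := by
    have : Countable (Set.range Φ) := hc.to_subtype
    exact (Set.rangeFactorization_injective.2 hΦ).countable
  have h2 : Uncountable (ℕ → Bool) := by
    rw [← Cardinal.aleph0_lt_mk_iff]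
    simp only [Cardinal.mk_pi, Cardinal.mk_bool, Cardinal.prod_const, Cardinal.lift_id,
      Cardinal.mk_nat]
    exact Cardinal.cantor _
  exact (not_countable (α := ℕ → Bool)) h1

end Pool.Agent.K1H57.CCGroup
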