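import Pool.Agent.W684.FM.Ambient

/-!
# Two combinatorial consequences of Martin's axiom for `κ` dense sets

* `bounded` : every family of at most `κ` functions from `ℕ` to `ℕ` is dominated by one function;
* `exists_pseudo` : every family of at most `κ` subsets of `ℕ`, all of whose finite subfamilies
  have infinite intersection, has an infinite pseudo-intersection.
-/

set_option autoImplicit false

namespace Pool.Agent.K1H57.MATools

open Cardinal Pool.Agent.W684 Pool.Agent.W684.FM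

/-- Martin's axiom for conditions which are divided into countably many classes of pairwise
compatible conditions. -/
theorem martin_use {κ : Cardinal.{0}} (hMA : MartinAxiomCard κ) (P : Type) [Preorder P]
    [Nonempty P] {T : Type} [Countable T] (c : P → T)
    (hc : ∀ p q, c p = c q → ∃ r, r ≤ p ∧ r ≤ q) {X : Type} (hX : #X ≤ κ) (D : X → Set P)
    (hD : ∀ i p, ∃ q ∈ D i, q ≤ p) :
    ∃ G : Set P, (∀ p ∈ G, ∀ q ∈ G, ∃ r ∈ G, r ≤ p ∧ r ≤ q) ∧ ∀ i, ∃ p ∈ G, p ∈ D i := by
  have hccc : IsCCC P := by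
    intro A hA
    have hinj : Set.InjOn c A := by
      intro p hp q hq hpq
      by_contra hne
      exact hA p hp q hq hne (hc p q hpq)
    exact Set.MapsTo.countable_of_injOn (Set.mapsTo_univ c A) hinj Set.countable_univ
  obtain ⟨G, -, -, h3, h4⟩ := hMA P hccc (Set.range D) ((mk_range_le).trans hX) (by
    rintro _ ⟨i, rfl⟩ p
    exact hD i p)
  refine ⟨G, h3, fun i => ?_⟩
  obtain ⟨p, hp⟩ := h4 (D i) ⟨i, rfl⟩
  exact ⟨p, hp.1, hp.2⟩

/-! ### Dominating functions -/

/-- Conditions for a dominating function: a finite sequence and a finite set of promises. -/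
structure HC {X : Type} (F : X → ℕ → ℕ) where
  /-- the stem -/
  s : List ℕ
  /-- the promises -/
  a : Finset X

namespace HC

variable {X : Type} {F : X → ℕ → ℕ}

instance : Preorder (HC F) where
  le q p := p.s.length ≤ q.s.length ∧ p.a ⊆ q.a ∧
    (∀ i < p.s.length, q.s.getD i 0 = p.s.getD i 0) ∧
    ∀ i, p.s.length ≤ i → i < q.s.length → ∀ x ∈ p.a, F x i < q.s.getD i 0
  le_refl p := ⟨le_rfl, Finset.Subset.refl _, fun _ _ => rfl, fun i h h' => absurd h' (not_lt.2 h)⟩
  le_trans r q p hrq hqp := by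
    obtain ⟨r1, r2, r3, r4⟩ := hrq
    obtain ⟨q1, q2, q3, q4⟩ := hqp
    refine ⟨q1.trans r1, q2.trans r2, ?_, ?_⟩
    · intro i hi
      rw [r3 i (lt_of_lt_of_le hi q1), q3 i hi]
    · intro i hi hi' x hx
      by_cases h : i < q.s.length
      · rw [r3 i h]
        exact q4 i hi h x hx
      · exact r4 i (not_lt.1 h) hi' x (q2 hx)

theorem extend (p : HC F) (M : ℕ) : ∃ q : HC F, q ≤ p ∧ M ≤ q.s.length := by
  induction M with
  | zero => exact ⟨p, le_rfl, Nat.zero_le _⟩
  | succ M ih =>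
    obtain ⟨q, hq, hM⟩ := ih
    let v := q.a.sup (fun x => F x q.s.length) + 1
    refine ⟨⟨q.s ++ [v], q.a⟩, le_trans ?_ hq, ?_⟩
    · refine ⟨?_, Finset.Subset.refl _, ?_, ?_⟩
      · simp
      · intro i hi
        rw [List.getD_append _ _ _ _ hi]
      · intro i hi hi' x hx
        have h1 : i = q.s.length := by
          simp only [List.length_append, List.length_singleton] at hi'
          omega
        subst h1
        have h2 : (q.s ++ [v]).getD q.s.length 0 = v := by
          rw [List.getD_append_right _ _ _ _ le_rfl]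
          simp
        rw [h2]
        exact Nat.lt_succ_of_le (Finset.le_sup (f := fun x => F x q.s.length) hx)
    · simp only [List.length_append, List.length_singleton]
      omega

end HC

/-- Under Martin's axiom for `κ` dense sets every family of at most `κ` functions is eventually
bounded. -/
theorem bounded {κ : Cardinal.{0}} (hMA : MartinAxiomCard κ) (hκ : ℵ₀ ≤ κ) {X : Type}
    (hX : #X ≤ κ) (F : X → ℕ → ℕ) : ∃ g : ℕ → ℕ, ∀ x, ∀ᶠ i in Filter.atTop, F x i < g i := by
  classical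
  have : Nonempty (HC F) := ⟨⟨[], ∅⟩⟩
  obtain ⟨G, hG1, hG2⟩ := martin_use hMA (HC F) (T := List ℕ) (fun p => p.s)
    (by
      intro p q hpq
      refine ⟨⟨p.s, p.a ∪ q.a⟩, ⟨le_rfl, Finset.subset_union_left, fun _ _ => rfl,
        fun i h h' => absurd h' (not_lt.2 h)⟩, ?_⟩
      refine ⟨by rw [hpq], Finset.subset_union_right, fun i _ => by simp only [hpq],
        fun i h h' => absurd h' (not_lt.2 (by simp only [hpq]; exact h))⟩)
    (X := Option X × ℕ)
    (by
      rw [mk_prod, Cardinal.lift_id, Cardinal.lift_id, mk_option, mk_nat]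
      exact mul_le_of_le hκ (add_le_of_le hκ hX (one_le_aleph0.trans hκ)) hκ)
    (fun z => {p | (∀ s, z.1 = some s → s ∈ p.a) ∧ z.2 ≤ p.s.length})
    (by
      rintro ⟨s, M⟩ p
      obtain ⟨q, hq1, hq2⟩ := HC.extend (⟨p.s, p.a ∪ s.toFinset⟩ : HC F) M
      refine ⟨q, ⟨fun s' hs' => hq1.2.1 ?_, hq2⟩, le_trans hq1 ?_⟩
      · simp only at hs'
        rw [hs']
        simp
      · exact ⟨le_rfl, Finset.subset_union_left, fun _ _ => rfl,
          fun i h h' => absurd h' (not_lt.2 h)⟩)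
  have h1 : ∀ i : ℕ, ∃ p ∈ G, i < p.s.length := by
    intro i
    obtain ⟨p, hp, h⟩ := hG2 (none, i + 1)
    exact ⟨p, hp, h.2⟩
  choose w hw hwl using h1
  refine ⟨fun i => (w i).s.getD i 0, fun x => ?_⟩
  obtain ⟨p, hp, hpx, -⟩ := hG2 (some x, 0)
  have hpx' : x ∈ p.a := hpx x rfl
  refine Filter.eventually_atTop.2 ⟨p.s.length, fun i h2 => ?_⟩
  obtain ⟨r, hr, hr1, hr2⟩ := hG1 p hp (w i) (hw i)
  have h3 : i < r.s.length := lt_of_lt_of_le (hwl i) hr2.1
  show F x i < (w i).s.getD i 0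
  rw [← hr2.2.2.1 i (hwl i)]
  exact hr1.2.2.2 i h2 h3 x hpx'

/-! ### Pseudo-intersections -/

/-- Conditions for a pseudo-intersection: a finite set and a finite set of promises. -/
structure MC {X : Type} (S : X → Set ℕ) where
  /-- the stem -/
  s : Finset ℕ
  /-- the promises -/
  a : Finset X

namespace MC

variable {X : Type} {S : X → Set ℕ}

instance : Preorder (MC S) where
  le q p := p.s ⊆ q.s ∧ p.a ⊆ q.a ∧ ∀ n ∈ q.s, n ∉ p.s → ∀ x ∈ p.a, n ∈ S x
  le_refl p := ⟨Finset.Subset.refl _, Finset.Subset.refl _, fun n h h' => absurd h h'⟩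
  le_trans r q p hrq hqp := by
    obtain ⟨r1, r2, r3⟩ := hrq
    obtain ⟨q1, q2, q3⟩ := hqp
    refine ⟨q1.trans r1, q2.trans r2, ?_⟩
    intro n hn hn' x hx
    by_cases h : n ∈ q.s
    · exact q3 n h hn' x hx
    · exact r3 n hn h x (q2 hx)

end MC

/-- Under Martin's axiom for `κ` dense sets every family of at most `κ` subsets of `ℕ`, all of
whose finite subfamilies have infinite intersection, has an infinite pseudo-intersection. -/
theorem exists_pseudo {κ : Cardinal.{0}} (hMA : MartinAxiomCard κ) (hκ : ℵ₀ ≤ κ) {X : Type}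
    (hX : #X ≤ κ) (S : X → Set ℕ) (hS : ∀ a : Finset X, (⋂ x ∈ a, S x).Infinite) :
    ∃ A : Set ℕ, A.Infinite ∧ ∀ x, (A \ S x).Finite := by
  classical
  have : Nonempty (MC S) := ⟨⟨∅, ∅⟩⟩
  obtain ⟨G, hG1, hG2⟩ := martin_use hMA (MC S) (T := Finset ℕ) (fun p => p.s)
    (by
      intro p q hpq
      refine ⟨⟨p.s, p.a ∪ q.a⟩, ⟨Finset.Subset.refl _, Finset.subset_union_left,
        fun n h h' => absurd h h'⟩, ?_⟩
      exact ⟨by rw [hpq], Finset.subset_union_right, fun n h h' => absurd (hpq ▸ h) h'⟩)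
    (X := Option X × ℕ)
    (by
      rw [mk_prod, Cardinal.lift_id, Cardinal.lift_id, mk_option, mk_nat]
      exact mul_le_of_le hκ (add_le_of_le hκ hX (one_le_aleph0.trans hκ)) hκ)
    (fun z => {p | (∀ x, z.1 = some x → x ∈ p.a) ∧ ∃ n ∈ p.s, z.2 ≤ n})
    (by
      rintro ⟨x, M⟩ p
      obtain ⟨n, hn, hMn⟩ := (hS p.a).exists_gt M
      refine ⟨⟨insert n p.s, p.a ∪ x.toFinset⟩, ⟨fun x' hx' => ?_, n, by simp, hMn.le⟩,
        Finset.subset_insert _ _, Finset.subset_union_left, ?_⟩
      · simp only at hx'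
        simp [hx']
      · intro m hm hm' y hy
        rcases Finset.mem_insert.1 hm with rfl | h
        · exact Set.mem_iInter₂.1 hn y hy
        · exact absurd h hm')
  refine ⟨{n | ∃ p ∈ G, n ∈ p.s}, ?_, ?_⟩
  · refine Set.infinite_of_not_bddAbove ?_
    rintro ⟨M, hM⟩
    obtain ⟨p, hp, -, n, hn, hMn⟩ := hG2 (none, M + 1)
    have : n ≤ M := hM ⟨p, hp, hn⟩
    simp only at hMn
    omega
  · intro x
    obtain ⟨p, hp, hpx, -⟩ := hG2 (some x, 0)
    refine p.s.finite_toSet.subset ?_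
    rintro n ⟨⟨q, hq, hn⟩, hnS⟩
    by_contra hcon
    obtain ⟨r, hr, hrp, hrq⟩ := hG1 p hp q hq
    exact hnS (hrp.2.2 n (hrq.1 hn) hcon x (hpx x rfl))

end Pool.Agent.K1H57.MATools
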